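import Mathlib

namespace Pool.Agent.Results.MP_798444_co.TwinCounterexample

/-- `f` is harmonic: `deg v * f v` is the sum of `f` over the neighbours of `v`. -/
def IsHarmonic {V : Type} (G : SimpleGraph V) [G.LocallyFinite] (f : V → ℤ) : Prop :=
  ∀ v, (G.degree v : ℤ) * f v = ∑ u ∈ G.neighborFinset v, f u

/-- The automorphism group acts transitively on the vertices. -/
def IsVertexTransitive {V : Type} (G : SimpleGraph V) : Prop :=
  ∀ u v, ∃ φ : G ≃g G, φ u = v

def G0 : SimpleGraph (ℤ × ZMod 2) where
  Adj a b := a.1 + 1 = b.1 ∨ b.1 + 1 = a.1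
  symm := ⟨fun _ _ h => h.symm⟩
  loopless := ⟨fun a h => by omega⟩

theorem fin_nb (v : ℤ × ZMod 2) : (G0.neighborSet v).Finite := by
  refine (((Set.finite_singleton (v.1 + 1)).insert (v.1 - 1)).prod Set.finite_univ).subset ?_
  intro u hu
  simp only [SimpleGraph.mem_neighborSet, G0] at hu
  simp only [Set.mem_prod, Set.mem_insert_iff, Set.mem_singleton_iff, Set.mem_univ, and_true]
  omega

noncomputable instance lf : G0.LocallyFinite := fun v => (fin_nb v).fintype

theorem result : ∃ (V : Type) (G : SimpleGraph V) (_ : G.LocallyFinite), Infinite V ∧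
    G.Connected ∧ IsVertexTransitive G ∧
    ∀ f : V → ℤ, IsHarmonic G f → ¬ Function.Injective f := by
  refine ⟨ℤ × ZMod 2, G0, lf, inferInstance, ?_, ?_, ?_⟩
  · have step : ∀ (a : ℤ) (x y : ZMod 2), G0.Reachable (a, x) (a + 1, y) :=
      fun a x y => SimpleGraph.Adj.reachable (Or.inl rfl)
    have z : ∀ (a : ℤ) (x : ZMod 2), G0.Reachable (0, 0) (a, x) := by
      intro a
      induction a using Int.induction_on with
      | zero => exact fun x => (step 0 0 0).trans (step 0 x 0).symm
      | succ n ih => exact fun x => (ih 0).trans (step _ _ _)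
      | pred n ih =>
        intro x
        have := step (-(n : ℤ) - 1) x 0
        rw [sub_add_cancel] at this
        exact (ih 0).trans this.symm
    exact ⟨fun u v => (z u.1 u.2).symm.trans (z v.1 v.2)⟩
  · intro u v
    refine ⟨⟨Equiv.addRight (v - u), ?_⟩, add_sub_cancel u v⟩
    intro a b
    simp only [G0, Equiv.coe_addRight, Prod.fst_add]
    omega
  · intro f hf hinj
    have hn : G0.neighborFinset (0, 0) = G0.neighborFinset (0, 1) := by
      ext u
      simp [G0]
    have h0 := hf (0, 0)
    have h1 := hf (0, 1)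
    have hd : G0.degree (0, 0) = G0.degree (0, 1) := by
      unfold SimpleGraph.degree
      rw [hn]
    have hpos : 0 < G0.degree (0, 1) := by
      rw [SimpleGraph.degree_pos_iff_exists_adj]
      exact ⟨(1, 0), Or.inl rfl⟩
    rw [hn, hd, ← h1] at h0
    have h2 := mul_left_cancel₀ (by exact_mod_cast hpos.ne') h0
    have h3 := hinj h2
    simp at h3

end Pool.Agent.Results.MP_798444_co.TwinCounterexample
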